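import Pool.Agent.R869.WLog2
import Pool.Agent.R869.SSix
import Pool.Agent.R869.UAll

/-!
MP_70ba79_ag, Q1: the degrees of the morphisms from affine curves, and log general type, for all
irreducible components of the open parts, by coordinate hyperplanes, of the projective varieties given
by linear combinations of the powers `x_j ^ d` and of `s` further monomials of degree `d`, in given
sets of variables, for almost all choices of these monomials; constants which do not depend on the
coefficients; for the hypersurfaces among them (with arbitrary coefficients), a necessary and
sufficient combinatorial criterion for the bound for the degrees of the morphisms with given vanishing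
coordinates, and for log general type of the subvarieties with given vanishing coordinates; varieties
of all dimensions for which the exceptional set is empty; forms with few monomials whose exponents are
far apart in the sense of lattice widths.

`Loose F J` (`Pool/Agent/R869/USharpDefs.lean`): `F` does not have exactly one monomial in the
variables from `J`, and there is a colouring of the variables with `V ≥ 2` colours on `J` such that
`N + D + 4 ≤ 2 V`, where `N` is the number of the monomials of `F` in the variables from `J` whose
variables have different colours, and `D` is the number of the colours on `J` for which exactly one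
monomial of `F` in the variables from `J` has all its variables of this colour.
`WideT U T N` (`Pool/Agent/R869/WHgt.lean`): whenever at most `n` pairs of elements of the sets
`T e`, in the variables of a set `I`, are such that the sum of the segments between them has positive
width in all directions, this sum has width at least `N` in all directions that are minimal on `U`.
`TuplesIn I d`, `AlmostAllIn I P` (`SDefs.lean`): the tuples of exponent vectors of degree `d`, the
`i`-th one of a monomial in the variables from `I i`; the proportion of the tuples with the property
`P` tends to `1` for `d → ∞`. `withPowers` (`WDensDefs.lean`): the set of the exponent vectors `a i` and of those of the `x_j ^ d`.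
`GenCoeffs F T` (`WGen.lean`): the coefficient vectors of the `m` forms `F e` at any `m` elements of
`T` are linearly independent (all coefficients are nonzero, if `m = 1`). `LinA k A U y`
(`WLog2.lean`): off a proper closed subset of the variety `V` with generic point `y`, the degrees of
the morphisms from the affine curves of genus `g` with `s` points at infinity to `V` are at most
`A max (2 g - 2 + s, 0)`. `StronglyLgt` (`WCptC.lean`): all closed subvarieties of positive dimension,
not in a certain proper closed subset, are of log general type. From the starting repository: `MapX`
and `LinB`, `EulB`, `EachB`, `GmB` (`Pool/Agent/Y190/AH/Tf.lean`): morphisms from affine curves to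
`X = {F = 0, x_j ≠ 0 for j in U}`, and, off a proper closed subset of `V`, the bound
`B max (2 g - 2 + s, 0)` for their degrees, the bound `β (2 g - 2 + s)` for a function `β`, bounds for
each affine curve, and for the multiplicative group; `SubVarU`, `OffU`, `IsForm`, `LogGeneralType`,
`IsComponentU`, `Acts` (`Pool/Agent/W602/GT`): the function fields and generic points of the closed
subvarieties of `X`, the places over the boundary, the components, diagonal actions; `pht`, `canDeg`:
the degree of a map, `2 g - 2`.
-/

set_option autoImplicit false

namespace Pool.Agent.Results.MP_70ba79_ag.AlmostAllMonomials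

open FF MvPolynomial Pool.Agent.W602.GT Pool.Agent.R869.Wd
open Pool.Agent.W603.LV (canDeg)
open Pool.Agent.W603.PV (pht)
open Pool.Agent.Y190.AH (MapX LinB EulB EachB GmB)

/-- For all irreducible components `V`, of positive dimension, of `X = {F = 0, x_j ≠ 0 for j in U}`,
the following are equivalent: `V` is of log general type; off a proper closed subset the degrees of the
morphisms from all affine curves to `V` are at most `A max (2 g - 2 + s, 0)`, or at most some constant
times this, or at most `β (2 g - 2 + s)` for some `β`, or they are bounded for each curve, or for the
multiplicative group; `V` is strongly of log general type; all diagonal one-parameter groups which act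
on `V` act trivially. -/
def Equivalent {k : Type} [Field k] [IsAlgClosed k] [CharZero k] {n : ℕ} {ι : Type} (A : ℕ)
    (U : Set (Fin (n + 1))) (F : ι → MvPolynomial (Fin (n + 1)) k) : Prop :=
  ∀ (K : Type) [Field K] [Algebra k K] (w : ℕ) (y : Fin (n + 1) → K), 1 ≤ w →
    SubVarU U F K w y → IsComponentU U F y →
    [LogGeneralType k K w (OffU U y), LinA k A U y, LinB k U y, EulB k U y, EachB k U y,
      GmB k U y, StronglyLgt U k y,
      ∀ b : Fin (n + 1) → ℤ, Acts U k y b → ∀ i i', y i ≠ 0 → y i' ≠ 0 → b i = b i'].TFAE

/-- For the hypersurface `X = {F = 0, x_j ≠ 0 for j in U}` and the set `J` of variables, the following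
are equivalent: `J` is loose for `F`; there is a closed subvariety of `X` of positive dimension which
is not of log general type and on which exactly the coordinates outside `J` vanish identically; the
degrees of the morphisms from the multiplicative group to `X` with this property are unbounded; it is
not true that all morphisms with this property from affine curves to `X` have degree at most
`A max (2 g - 2 + s, 0)`. -/
def LooseCriterion {k : Type} [Field k] [IsAlgClosed k] [CharZero k] {n : ℕ} (A : ℕ)
    (U : Set (Fin (n + 1))) (F : MvPolynomial (Fin (n + 1)) k) (J : Finset (Fin (n + 1))) : Prop :=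
  [Loose F J,
    ∃ (K : Type) (_ : Field K) (_ : Algebra k K) (w : ℕ) (y : Fin (n + 1) → K), 1 ≤ w ∧
      SubVarU U (fun _ : Fin 1 => F) K w y ∧ (∀ j, y j ≠ 0 ↔ j ∈ J) ∧
      ¬ LogGeneralType k K w (OffU U y),
    ¬ ∃ B : ℤ, ∀ f : Fin (n + 1) → RatFunc k,
      MapX U (fun _ : Fin 1 => F) (finite_support (k := k) (RatFunc.X : RatFunc k)).toFinset f →
      (∀ j, f j ≠ 0 ↔ j ∈ J) → pht k f ≤ B,
    ¬ ∀ (L : Type) [Field L] [Algebra k L] [IsFF k L] (S : Finset (Place k L))
      (f : Fin (n + 1) → L), MapX U (fun _ : Fin 1 => F) S f →
      (∀ j, f j ≠ 0 ↔ j ∈ J) → pht k f ≤ A * max (canDeg k L + S.card) 0].TFAE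

/-- (1) For all `n`, `s`, all nonempty sets of variables `I 1, …, I s` and almost all tuples of
monomials of degree `d` in `n + 1` variables, the `i`-th one in the variables from `I i`, there is a
constant `A` such that, over all algebraically closed fields of characteristic zero, for all `U`, the
conditions in `Equivalent` are equivalent for the projective varieties given by `m` linear
combinations of these monomials and of the `x_j ^ d`, and the conditions in `LooseCriterion` are
equivalent for the hypersurfaces given by such linear combinations (with arbitrary coefficients) and
all nonempty sets `J` of variables which contain `U`.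

(2) If all sets of `2 m + 2` variables are among the `I i`, `m ≥ 1`, and all `I i` have at least
`m + 1` elements, then, for almost all tuples of such monomials, there is a constant `A` such that for
all open parts `X` of the varieties given by `m` such linear combinations, with any `m` coefficient
vectors linearly independent, the degrees of all morphisms from affine curves to `X` are at most
`A max (2 g - 2 + s, 0)`, and all closed subvarieties of `X` of positive dimension are of log general
type. -/
theorem result :
    (∀ (n s : ℕ) (I : Fin s → Finset (Fin (n + 1))), (∀ i, (I i).Nonempty) →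
      AlmostAllIn I fun d a => ∃ A : ℕ, ∀ (k : Type) [Field k] [IsAlgClosed k] [CharZero k]
        (U : Set (Fin (n + 1))),
        (∀ (m : ℕ) (F : Fin m → MvPolynomial (Fin (n + 1)) k),
          (∀ e, (F e).support ⊆ withPowers d a) → Equivalent A U F) ∧
        ∀ (F : MvPolynomial (Fin (n + 1)) k) (J : Finset (Fin (n + 1))), J.Nonempty →
          (∀ j ∈ U, j ∈ J) → F.support ⊆ withPowers d a → LooseCriterion A U F J) ∧
    ∀ (n m s : ℕ) (I : Fin s → Finset (Fin (n + 1))), 1 ≤ m → (∀ i, m + 1 ≤ (I i).card) →
      (∀ A : Finset (Fin (n + 1)), A.card = 2 * m + 2 → ∃ i, I i = A) →
      AlmostAllIn I fun d a => ∃ A : ℕ, ∀ (k : Type) [Field k] [IsAlgClosed k] [CharZero k]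
        (F : Fin m → MvPolynomial (Fin (n + 1)) k) (U : Set (Fin (n + 1))),
        (∀ e, (F e).support ⊆ withPowers d a) → GenCoeffs F (withPowers d a) →
          (∀ (L : Type) [Field L] [Algebra k L] [IsFF k L] (S : Finset (Place k L))
            (f : Fin (n + 1) → L), MapX U F S f →
              pht k f ≤ A * max (canDeg k L + S.card) 0) ∧
          ∀ (K : Type) [Field K] [Algebra k K] (w : ℕ) (y : Fin (n + 1) → K), 1 ≤ w →
            SubVarU U F K w y → LogGeneralType k K w (OffU U y) := by
  classical
  refine ⟨?_, ?_⟩
  · intro n s I hI
    refine almost_typI hI fun d a hty => ?_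
    obtain ⟨s', N, hg⟩ := hty.good
    obtain ⟨A, hA⟩ := hg.unif
    exact ⟨A, fun k _ _ _ U => ⟨fun m F hFT K _ _ w y hw hy hcomp =>
      log_tfaeA (hg.sys hFT U) (hA k (Fin m) F hFT U) hw hy hcomp, fun F J hJ hU hF =>
        hty.critLog hF (hA k (Fin 1) (fun _ => F) (fun _ => hF) U) hJ hU⟩⟩
  · intro n m s I hm hI hall
    refine almost_typI (fun i => Finset.card_pos.1 (lt_of_lt_of_le (Nat.succ_pos m) (hI i)))
      fun d a hty => ?_
    obtain ⟨s', N, hg⟩ := hty.good
    obtain ⟨A, hA⟩ := hg.unif
    have hsp := spread_all hm hI hall
    exact ⟨A, fun k _ _ _ F U hFT hgc => ⟨fun L _ _ _ S f hf => hA k (Fin m) F hFT U L S f hf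
        (hty.no_parts hFT hgc (J := Finset.univ.filter fun j => f j ≠ 0) (fun j => by simp)
          (hsp _)),
      fun K _ _ w y hw hy => hty.lgt hFT hgc hw hy
        (J := Finset.univ.filter fun j => y j ≠ 0) (fun j => by simp) (hsp _)⟩⟩

/-- **Wide systems.** Let `T e` be finitely many sets of at most `s` exponent vectors which are
`N`-wide relative to `U` with `N > n s (s - 1) (s - 2) / 2`. There is a constant `A` such that
`Equivalent A U F` for all forms `F e` with exponents in `T e` over algebraically closed fields of
characteristic zero. -/
theorem wide_systems : ∀ (n s N : ℕ) (ι : Type) [Finite ι] (U : Set (Fin (n + 1)))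
      (T : ι → Finset (Fin (n + 1) →₀ ℕ)), 1 ≤ s →
      (∀ e, (T e).card ≤ s) → WideT U T N → n * (s * ((s - 1) * (s - 2) / 2)) < N →
      ∃ A : ℕ, ∀ (k : Type) [Field k] [IsAlgClosed k] [CharZero k]
        (F : ι → MvPolynomial (Fin (n + 1)) k), (∀ e, (F e).support ⊆ T e) →
        (∀ e, IsForm (F e)) → Equivalent A U F := by
  intro n s N ι _ U T hs hT hW hN
  have hN' : s * (n * Pool.Agent.R869.tri (s - 1)) < N := by
    rw [tri_choose]
    refine lt_of_le_of_lt (le_of_eq ?_) hN
    ring
  obtain ⟨A, hA⟩ := unif U T hs hT hW (cstC_lt hs hN')
  exact ⟨A, fun k _ _ _ F hFT hF K _ _ w y hw hy hcomp => log_tfaeA ⟨hF, hs,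
    fun e => (Finset.card_le_card (hFT e)).trans (hT e), wide_of_wideT hW hFT, hN'⟩
    (hA k F hFT hF) hw hy hcomp⟩

end Pool.Agent.Results.MP_70ba79_ag.AlmostAllMonomials
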