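import Pool.Agent.R871.SG.AlgD

/-!
MP_70ba79_ag, Q1: a bound for the degrees of the images of algebraic maps from an affine curve is also a
bound for the images of holomorphic maps of slow growth.
-/

set_option autoImplicit false

namespace Pool.Agent.Results.MP_70ba79_ag.DegreesOfImages

open Pool.Agent.R871.SG MvPolynomial

/-- Let `C` be an irreducible affine variety in `ℂᵖ` (for instance a smooth affine curve), given by the
prime ideal `I`, and let `X = {F = 0}` be an affine variety in `ℂˢ`, all over the complex numbers. There
is a function `φ` with `φ r / log r → ∞` for `r → ∞` such that for all closed subsets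
`Exc = {G = 0}` and all numbers `B ≥ 1` the following are equivalent.

(1) The image of every algebraic map `C → X`, which is not contained in `Exc`, is contained in an
algebraic curve of degree at most `B`, or is a point.

(2) The image of every holomorphic map `C → X`, which is not contained in `Exc`, and which is the
restriction of an entire map `f : ℂᵖ → ℂˢ` such that `log ‖f z‖ ≤ φ r` for all `z` with `‖z‖ ≤ r`,
for arbitrarily large `r`, is contained in an algebraic curve of degree at most `B`, or is a point.

That the image is contained in an algebraic curve of degree at most `B`, or is a point, is expressed by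
projections to the plane: for every linear map `L : ℂˢ → ℂ²` there is a nonzero polynomial of degree at
most `B` which vanishes at all points `L (f z)`, `z ∈ C`. -/
theorem result {p s : ℕ} {ι : Type} (I : Ideal (MvPolynomial (Fin p) ℂ)) [I.IsPrime]
    (F : ι → MvPolynomial (Fin s) ℂ) : ∃ φ : ℝ → ℝ, Grows φ ∧
      ∀ (κ : Type) (G : κ → MvPolynomial (Fin s) ℂ) (B : ℕ),
        (∀ P : Fin s → MvPolynomial (Fin p) ℂ, HolOn I F (mv P) → Outside I G (mv P) →
          InCurve I B (mv P)) ↔
        ∀ f, HolOn I F f → SlowM φ f → Outside I G f → InCurve I B f :=
  inCurve_iff I F

end Pool.Agent.Results.MP_70ba79_ag.DegreesOfImages
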