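import Mathlib
import Pool.Agent.R343.LY1
import Pool.Agent.Results.MP_70ba79_ag.SparseCurves

set_option autoImplicit false

/-!
# The Lang-Vojta conjecture for affine curves in all varieties of log general type: the curves with
compressible coordinates

A word of letters is cut into `z` phrases (`LZ a N z`, Lempel and Ziv) if each phrase is a single
letter, or a (possibly empty) copy of a block that begins further to the left; the block may
overlap the phrase. For instance the word `u v ^ m w` has a number of phrases which does not depend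
on `m`. So the word of the coefficients of a polynomial of arbitrarily large degree, with
arbitrarily many nonzero coefficients, may have few phrases.

`k` is an algebraically closed field of characteristic zero, `X` a smooth projective variety of
dimension `N` over `k`, `D = D_1 + ⋯ + D_q` a divisor of `X` with strict normal crossings (the `D_i` are
not necessarily hypersurface sections); the definitions are the ones of `SparseCurves`.

We consider the maps from curves to `X` (points `x` of `X` over the function field `L` of the curve)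
whose coordinates are

`x_c = ∑_{j < r} u c j * f c j (τ c j)`,

`u c j` and `τ c j` in `L`, `f c j` polynomials over `k` of any degree whose words of coefficients have
`z` phrases. Let `n(u, τ)` be the number of the points of the complete curve at which not all nonzero
`u c j` have the same order or some `τ c j` has nonzero order.

First part: for every `ε > 0` the inequality
`deg f ^* (K_X + D) ≤ #f ^(-1) (D) + ε deg f + C (2 g + n(u, τ))` holds outside a proper closed subset.
Second part: if `X - D` is of log general type then the conjecture holds, with a linear function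
`β`, for the maps `f : C → X - D` whose coordinates are such sums with units `u`, `τ` of `C` (the `u` up
to a common factor).

The starting result `SparseCurves` is the case of the monomials `f`. The proof: there is a product `Q`
of functions `τ ^ p - 1` such that all `Q x_c` are sums of at most `r 6 ^ (z n r)`, `n = N + 1 + s`, terms
which have the same orders as the `u c j` at the places where the `τ` are units (if a `τ` is a root
of unity then `f (τ)` is constant). The degree of `Q` is not bounded, but `Q` does not change the map.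
-/

namespace Pool.Agent.Results.MP_70ba79_ag.LempelZivCurves

open MvPolynomial FF Pool.Agent.W603.LV Pool.Agent.Results.MP_70ba79_ag.SparseCurves
open Pool.Agent.R343.LP Pool.Agent.R343.FF

/-- The points at which not all nonzero `u c j` have the same order or some `τ c j` has nonzero
order. -/
def ramified (k : Type) {L : Type} [Field k] [Field L] [Algebra k L] {n r : ℕ}
    (u τ : Fin n → Fin r → L) : Set (Place k L) :=
  {P | P ∈ unequal k u ∨ ∃ c j, P.ord (τ c j) ≠ 0}

section

variable {k L : Type} [Field k] [IsAlgClosed k] [CharZero k] [Field L] [Algebra k L] [IsFF k L]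

omit [IsAlgClosed k] [CharZero k] [IsFF k L] in
theorem onX_smul {n g : ℕ} {G : Fin g → MvPolynomial (Fin n) k} {e : Fin g → ℕ}
    (hG : ∀ j, (G j).IsHomogeneous (e j)) {x : Fin n → L} (hx : OnX G x) (D : L) :
    OnX G (fun c => D * x c) := by
  intro j
  rw [Pool.Agent.Y731.FG.aeval_smul_hom (hG j), hx j, mul_zero]

omit [IsAlgClosed k] [CharZero k] [IsFF k L] in
theorem basis_smul {n g N : ℕ} {G : Fin g → MvPolynomial (Fin n) k} {e : Fin g → ℕ}
    (hG : ∀ j, (G j).IsHomogeneous (e j)) {x : Fin n → L} {D : L} (hD : D ≠ 0)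
    (A : Matrix (Fin n) (Fin (N + 1)) L) :
    IsTangentBasis G (fun c => D * x c) A ↔ IsTangentBasis G x A := by
  unfold IsTangentBasis
  refine and_congr_right fun _ => forall_congr' fun j => forall_congr' fun c => ?_
  have h1 : ∑ a, aeval (fun c => D * x c) (pderiv a (G j)) * A a c =
      D ^ (e j - 1) * ∑ a, aeval x (pderiv a (G j)) * A a c := by
    rw [Finset.mul_sum]
    refine Finset.sum_congr rfl fun a _ => ?_
    rw [Pool.Agent.Y731.FG.grad_smul (hG j) D hD x a, mul_assoc]
  rw [h1, mul_eq_zero, or_iff_right (pow_ne_zero _ hD)]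

theorem height_smul {n : ℕ} {x : Fin n → L} (hx : ∃ c, x c ≠ 0) {D : L} (hD : D ≠ 0) :
    height k (fun c => D * x c) = height k x :=
  Pool.Agent.Y731.FG.hgtP_smul (k := k) hD hx

omit [IsAlgClosed k] [CharZero k] [IsFF k L] in
theorem local_smul {n w : ℕ} {E : Fin w → MvPolynomial (Fin n) k} {d : Fin w → ℕ}
    (hE : ∀ j, (E j).IsHomogeneous (d j)) {x : Fin n → L} (hx : ∃ c, x c ≠ 0) {D : L} (hD : D ≠ 0)
    (P : Place k L) : localHeight E d P (fun c => D * x c) = localHeight E d P x :=
  Pool.Agent.Y731.FG.locH_smul P hE hD hx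

omit [IsAlgClosed k] [CharZero k] [IsFF k L] in
theorem nonconstant_smul {n : ℕ} {x : Fin n → L} (hx : NonConstant k x) {D : L} (hD : D ≠ 0) :
    NonConstant k (fun c => D * x c) := by
  rintro ⟨z, a, h⟩
  refine hx ⟨z, a / D, fun c => ?_⟩
  have h1 : D * x c = algebraMap k L (z c) * a := h c
  rw [← mul_div_assoc, ← h1, mul_div_cancel_left₀ _ hD]

omit [IsAlgClosed k] [CharZero k] [IsFF k L] in
theorem exists_ne {n : ℕ} {x : Fin n → L} (hx : NonConstant k x) : ∃ c, x c ≠ 0 := by
  by_contra hno
  push Not at hno
  exact hx ⟨fun _ => 0, 0, fun c => by rw [hno, map_zero, zero_mul]⟩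

omit [IsAlgClosed k] [CharZero k] [IsFF k L] in
theorem unequal_sub {n r m : ℕ} {u τ : Fin n → Fin r → L} {t : Fin n → Fin m → L}
    (hord : ∀ (P : Place k L), (∀ c j, P.ord (τ c j) = 0) → ∀ c i, t c i ≠ 0 →
        ∃ j, u c j ≠ 0 ∧ P.ord (t c i) = P.ord (u c j)) (P : Place k L) (hP : P ∈ unequal k t) :
    P ∈ ramified k u τ := by
  by_contra hcon
  unfold ramified at hcon
  have hcon1 : P ∉ unequal k u := fun h => hcon (Or.inl h)
  have hcon2 : ∀ c j, P.ord (τ c j) = 0 := by
    intro c j
    by_contra h
    exact hcon (Or.inr ⟨c, j, h⟩)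
  obtain ⟨c, i, c', i', h3, h4, h5⟩ := hP
  obtain ⟨j, h6, h7⟩ := hord P hcon2 c i h3
  obtain ⟨j', h8, h9⟩ := hord P hcon2 c' i' h4
  exact hcon1 ⟨c, j, c', j', h6, h8, by rw [← h7, ← h9]; exact h5⟩

omit [IsAlgClosed k] in
theorem ramified_finite {n r : ℕ} (u τ : Fin n → Fin r → L) : (ramified k u τ).Finite := by
  have h3 : (⋃ c, ⋃ j, {P : Place k L | P.ord (τ c j) ≠ 0}).Finite :=
    Set.finite_iUnion fun c => Set.finite_iUnion fun j => finite_support (τ c j)
  refine (((Pool.Agent.Y731.FG.uneq_finite u : (unequal k u).Finite)).union h3).subset ?_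
  rintro P (h | ⟨c, j, h⟩)
  · exact Or.inl h
  · exact Or.inr (Set.mem_iUnion.2 ⟨c, Set.mem_iUnion.2 ⟨j, h⟩⟩)

end

/-- **Main theorem.** Let `X` be a smooth projective variety of dimension `N` over the algebraically
closed field `k` of characteristic zero, `D` a divisor of `X` with strict normal crossings, and `r`,
`z` numbers. We consider the points `x` of `X` over function fields `L` of curves with
`x_c = ∑_{j < r} u c j * f c j (τ c j)`, where the `f c j` are polynomials over `k` of any degrees (with
the words of coefficients `a c j` of length `M c j`) with `z` phrases.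

First part. For every `ε > 0` there are a form `Φ` that does not vanish on `X` and a constant `C`
such that for all curves, all nonconstant maps `f` to `X`, not into `D` or `Φ = 0`, with such
coordinates, `deg f ^* (K_X + D) ≤ #f ^(-1) (D) + ε deg f + C (2 g + n(u, τ))`, where `n(u, τ)` is the
number of the points at which not all nonzero `u c j` have the same order or some `τ c j` has
nonzero order.

Second part. Let `X` be irreducible and `X - D` of log general type. There are a form `Φ` that does
not vanish on `X` and a constant `B` such that for all affine curves `C` (the complement of the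
finite set `S` of places of `L`) and all nonconstant maps `f` from `C` to `X - D`, not into `Φ = 0`,
with such coordinates, `u`, `τ` units of `C` or zeros (the `u` up to a common factor),
`deg f ≤ B (χ(C) + 2)`, `χ(C) = 2 g - 2 + #S`. -/
theorem result {k : Type} [Field k] [IsAlgClosed k] [CharZero k]
    (N s g q w r z : ℕ) (G : Fin g → MvPolynomial (Fin (N + 1 + s)) k) (e : Fin g → ℕ)
    (hG : ∀ j, (G j).IsHomogeneous (e j))
    (E : Fin q → Fin w → MvPolynomial (Fin (N + 1 + s)) k) (d : Fin q → Fin w → ℕ)
    (hE : ∀ i j, (E i j).IsHomogeneous (d i j)) (hdim : DimGE N G) (hsm : SmoothPair s G E) :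
    (∀ ε : ℝ, 0 < ε → ∃ (Φ : MvPolynomial (Fin (N + 1 + s)) k) (n : ℕ) (C : ℝ),
      Φ.IsHomogeneous n ∧ (∃ z : Fin (N + 1 + s) → k, OnX G z ∧ aeval z Φ ≠ 0) ∧
      ∀ (L : Type) [Field L] [Algebra k L] [IsFF k L] (x : Fin (N + 1 + s) → L)
        (u τ : Fin (N + 1 + s) → Fin r → L) (a : Fin (N + 1 + s) → Fin r → ℕ → k)
        (M : Fin (N + 1 + s) → Fin r → ℕ), OnX G x → NonConstant k x →
        (∀ i, ∃ j, aeval x (E i j) ≠ 0) → aeval x Φ ≠ 0 → (∀ c j, LZ (a c j) (M c j) z) →
        (∀ c, x c = ∑ j, u c j * val (a c j) (M c j) (τ c j)) →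
        ∀ A : Matrix (Fin (N + 1 + s)) (Fin (N + 1)) L, IsTangentBasis G x A →
          ((canonicalHeight k x A + divisorHeight E d x : ℤ) : ℝ) ≤
            preimages E d x + ε * height k x + C * (twiceGenus k L + (ramified k u τ).ncard)) ∧
    (Irred G → LogGeneralType N G E d → ∃ (Φ : MvPolynomial (Fin (N + 1 + s)) k) (n : ℕ) (B : ℝ),
      Φ.IsHomogeneous n ∧ (∃ z : Fin (N + 1 + s) → k, OnX G z ∧ aeval z Φ ≠ 0) ∧
      ∀ (L : Type) [Field L] [Algebra k L] [IsFF k L] (S : Finset (Place k L))
        (x : Fin (N + 1 + s) → L)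
        (u τ : Fin (N + 1 + s) → Fin r → L) (a : Fin (N + 1 + s) → Fin r → ℕ → k)
        (M : Fin (N + 1 + s) → Fin r → ℕ), OnX G x →
        NonConstant k x → (∀ i, ∃ j, aeval x (E i j) ≠ 0) →
        (∀ P : Place k L, P ∉ S → ∀ i, localHeight (E i) (d i) P x ≤ 0) → aeval x Φ ≠ 0 →
        (∀ c j, LZ (a c j) (M c j) z) →
        (∀ c, x c = ∑ j, u c j * val (a c j) (M c j) (τ c j)) → (∀ P ∈ ramified k u τ, P ∈ S) →
          (height k x : ℝ) ≤ B * ((canDeg k L + S.card) + 2)) := by
  classical
  obtain ⟨hres1, hres2⟩ := SparseCurves.result (k := k) N s g q w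
    (r * (6 ^ z) ^ ((N + 1 + s) * r)) G e hG E d hE hdim hsm
  constructor
  · intro ε hε
    obtain ⟨Φ, n, C, hn, hΦ, hmain⟩ := hres1 ε hε
    refine ⟨Φ, n, |C|, hn, hΦ, ?_⟩
    intro L _ _ _ x u τ a M hX hx hEx hΦx hLZ hxe A hA
    have hx0 := exists_ne hx
    obtain ⟨D, t, hD, ht, hord⟩ := terms (k := k) z x u τ a M hLZ hxe
    have h1 := hmain L (fun c => D * x c) t (onX_smul hG hX D) (nonconstant_smul hx hD)
      (fun i => by
        obtain ⟨j, hj⟩ := hEx i
        refine ⟨j, ?_⟩
        rw [Pool.Agent.Y731.FG.aeval_smul_hom (hE i j)]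
        exact mul_ne_zero (pow_ne_zero _ hD) hj)
      (by
        rw [Pool.Agent.Y731.FG.aeval_smul_hom hn]
        exact mul_ne_zero (pow_ne_zero _ hD) hΦx) ht A ((basis_smul hG hD A).2 hA)
    have hloc : ∀ (i : Fin q) (P : Place k L), localHeight (E i) (d i) P (fun c => D * x c) =
        localHeight (E i) (d i) P x := fun i P => local_smul (hE i) hx0 hD P
    have e1 : canonicalHeight k (fun c => D * x c) A = canonicalHeight k x A := by
      unfold canonicalHeight
      rw [height_smul hx0 hD]
    have e2 : divisorHeight E d (fun c => D * x c) = divisorHeight E d x := by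
      unfold divisorHeight
      simp only [hloc]
    have e3 : preimages E d (fun c => D * x c) = preimages E d x := by
      unfold preimages
      simp only [hloc]
    rw [e1, e2, e3, height_smul hx0 hD] at h1
    refine h1.trans (add_le_add le_rfl ?_)
    have h2 : ((unequal k t).ncard : ℝ) ≤ ((ramified k u τ).ncard : ℝ) := by
      exact_mod_cast Set.ncard_le_ncard (unequal_sub hord) (ramified_finite u τ)
    have h3 : (0 : ℝ) ≤ (twiceGenus k L : ℤ) := by
      exact_mod_cast Pool.Agent.Y731.CC.canDeg_ge (k := k) (K := L)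
    have h4 : (0 : ℝ) ≤ ((unequal k t).ncard : ℝ) := Nat.cast_nonneg _
    calc C * (twiceGenus k L + ((unequal k t).ncard : ℝ))
        ≤ |C| * (twiceGenus k L + ((unequal k t).ncard : ℝ)) :=
          mul_le_mul_of_nonneg_right (le_abs_self C) (by linarith)
      _ ≤ _ := mul_le_mul_of_nonneg_left (by linarith) (abs_nonneg C)
  · intro hirr hgt
    obtain ⟨Φ, n, B, hn, hΦ, hmain⟩ := hres2 hirr hgt
    refine ⟨Φ, n, B, hn, hΦ, ?_⟩
    intro L _ _ _ S x u τ a M hX hx hEx hSx hΦx hLZ hxe hS
    have hx0 := exists_ne hx
    obtain ⟨D, t, hD, ht, hord⟩ := terms (k := k) z x u τ a M hLZ hxe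
    have h1 := hmain L S (fun c => D * x c) t (onX_smul hG hX D) (nonconstant_smul hx hD)
      (fun i => by
        obtain ⟨j, hj⟩ := hEx i
        refine ⟨j, ?_⟩
        rw [Pool.Agent.Y731.FG.aeval_smul_hom (hE i j)]
        exact mul_ne_zero (pow_ne_zero _ hD) hj)
      (fun P hP i => by
        rw [local_smul (hE i) hx0 hD]
        exact hSx P hP i)
      (by
        rw [Pool.Agent.Y731.FG.aeval_smul_hom hn]
        exact mul_ne_zero (pow_ne_zero _ hD) hΦx) ht
      (fun P hP => hS P (unequal_sub hord P hP))
    rwa [height_smul hx0 hD] at h1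

end Pool.Agent.Results.MP_70ba79_ag.LempelZivCurves
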