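import Mathlib
import Pool.Agent.R849.FQ.Deg

set_option autoImplicit false

/-!
# The Lang-Vojta conjecture for the curves whose coordinates are sums of few high powers

MP_70ba79_ag, Q1: for all pairs `(X, D)` of log general type (the components of `D` being
hypersurface sections), and for all curves whose coordinates are sums, with small coefficients, of a
bounded number `r` of functions, where outside `S` all zeros and poles of these functions and all
intersections with `D` have multiplicities divisible by a large number `M`, for instance morphisms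
from affine curves to `X - D`, where `S` are the points at infinity. The bound for the degree is
linear, with a constant which depends only on `r` and the degrees of the equations. The conditions
on the pair are those of the starting file `SparseCurves`.
-/

namespace Pool.Agent.Results.MP_70ba79_ag.SumsOfPowersDegrees

open FF MvPolynomial Pool.Agent.W603.LV Pool.Agent.R849.FQ
open Pool.Agent.Results.MP_70ba79_ag.SparseCurves hiding result

/-- For all `δ` and `r` there is a constant `A` such that the following holds. Let `X` be a smooth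
irreducible projective variety of dimension `N` in `P^n` (`n = N + s`) over the complex numbers with
the equations `G j = 0`, `deg G j ≤ δ`. Let `D` be a divisor with strict normal crossings on `X`,
whose components `D_i` are given by forms `E i` of degrees `d i`, `∑ d i ≤ δ`, such that `X - D` is of
log general type. Then there is a form `Φ` which does not vanish on `X` such that for all
`M ≥ 2 (δ + 2) ^ (2 (r + 1))`, all curves (with function field `K`), all finite sets `S` of points and
all maps `x` to `X` with the coordinates `x_a = ∑ u_j ρ_(j,a)` (`r` terms), not into `D` and `Φ = 0`,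
such that outside `S` the orders of `u_1, …, u_r` are congruent modulo `M` to some `μ` and the orders
of the `E i (x)` to `d i * μ`,
`deg x ≤ A (max (2 g - 2 + #S, 0) + ∑ deg ρ_(j,a))`. -/
theorem result (δ r : ℕ) : ∃ A : ℕ, ∀ {N s n g q : ℕ} (_ : n + 1 = N + 1 + s)
    (G : Fin g → MvPolynomial (Fin (n + 1)) ℂ) (e : Fin g → ℕ)
    (_ : ∀ j, (G j).IsHomogeneous (e j)) (_ : ∀ j, e j ≤ δ)
    (E : Fin q → MvPolynomial (Fin (n + 1)) ℂ) (d : Fin q → ℕ)
    (_ : ∀ i, (E i).IsHomogeneous (d i)) (_ : ∑ i, d i ≤ δ)
    (_ : DimGE N G) (_ : SmoothPair s G (fun i (_ : Fin 1) => E i)) (_ : Irred G)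
    (_ : LogGeneralType N G (fun i (_ : Fin 1) => E i) (fun i _ => d i)),
    ∃ (Φ : MvPolynomial (Fin (n + 1)) ℂ) (a : ℕ), Φ.IsHomogeneous a ∧
      (∃ z : Fin (n + 1) → ℂ, OnX G z ∧ aeval z Φ ≠ 0) ∧
      ∀ (M : ℕ), 2 * (δ + 2) ^ (2 * (r + 1)) ≤ M →
        ∀ (K : Type) [Field K] [Algebra ℂ K] [IsFF ℂ K] (S : Finset (Place ℂ K)) (u : Fin r → K)
          (ρ : Fin r → Fin (n + 1) → K) (x : Fin (n + 1) → K), PowerCurve G E d M S u ρ x →
          aeval x Φ ≠ 0 →
          height ℂ x ≤ A * (max (canDeg ℂ K + S.card) 0 + ∑ j, ∑ a, hgt ℂ (ρ j a)) := by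
  obtain ⟨A, hA⟩ := deg_bound δ r
  refine ⟨A, ?_⟩
  intro N s n g q hn G e hG he E d hE hd hdim hsm hirr hlgt
  obtain ⟨Φ, a, B, hΦ, hΦX, hB⟩ := exists_bound (r := r) hn G e hG (fun i (_ : Fin 1) => E i)
    (fun i _ => d i) (fun i _ => hE i) hdim hsm hirr hlgt
  refine ⟨Φ, a, hΦ, hΦX, fun M hM K _ _ _ S u ρ x hx hxΦ => ?_⟩
  exact hA G e hG he E d hE hd Φ B hB M hM K S u ρ x hx hxΦ

end Pool.Agent.Results.MP_70ba79_ag.SumsOfPowersDegrees
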